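import Pool.Agent.H705.TR.Stm

/-! # Package LIT of project TR: the literal recursion is the case `x c = c` -/

set_option autoImplicit false

namespace Pool.Agent.H457.TR.LIT

open Pool.Agent.H705.TR

lemma primeIn_iff (m : ℕ) (hm : 2 ≤ m) : PrimeIn m m ↔ m.Prime := by
  constructor
  · intro h
    by_contra hp
    exact h m.minFac (Nat.minFac_prime (by omega)) (Nat.minFac_sq_le_self (by omega) hp) (Nat.minFac_dvd m)
  · intro hp p hpp hle hdvd
    rcases (Nat.dvd_prime hp).mp hdvd with h | h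
    · exact hpp.one_lt.ne' h
    · subst h
      nlinarith

lemma G_id {c n : ℕ} (hn : 1 ≤ n) (hc : n < c) : G c n c = Nat.gcd (c - n) (n + b n) := by
  have h1 : Nat.gcd (c + b n) (n + b n) = Nat.gcd (c - n) (n + b n) := by
    have : c + b n = (c - n) + (n + b n) := by omega
    rw [this, Nat.gcd_add_self_left]
  unfold G
  split_ifs with h
  · rw [primeIn_iff _ (by omega)] at h
    rw [← h1]
    have h2 : Nat.gcd (c + b n) (n + b n) = 1 := Nat.coprime_of_lt_prime (by omega) (by omega) h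
    exact Eq.symm h2
  · exact h1

lemma step {a : ℕ → ℤ} {N n : ℕ} (hn : 1 ≤ n)
    (ha : a (n + 1) = a n - (Int.gcd (a n) (((n + 1 : ℕ) : ℤ) + b (n + 1)) : ℤ))
    (h0 : aseq id N n ≠ 0) (ih : (aseq id N n : ℤ) = a n) : (aseq id N (n + 1) : ℤ) = a (n + 1) := by
  obtain ⟨k, rfl⟩ : ∃ k, n = k + 1 := ⟨n - 1, by omega⟩
  have hpos : 0 < aseq id N (k + 1) := Nat.pos_of_ne_zero h0
  have e1 : aseq id N (k + 1 + 1) = aseq id N (k + 1) -
      G (aseq id N (k + 1) + (k + 2)) (k + 2) (id (aseq id N (k + 1) + (k + 2))) := rfl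
  rw [e1, id, G_id (by omega) (by omega), ha, ← ih]
  have e2 : aseq id N (k + 1) + (k + 2) - (k + 2) = aseq id N (k + 1) := by omega
  rw [e2]
  have e3 : Int.gcd (aseq id N (k + 1) : ℤ) (((k + 1 + 1 : ℕ) : ℤ) + b (k + 1 + 1)) =
      Nat.gcd (aseq id N (k + 1)) (k + 2 + b (k + 2)) := by
    rw [← Nat.cast_add, Int.gcd_natCast_natCast]
  rw [e3, Nat.cast_sub (Nat.le_of_dvd hpos (Nat.gcd_dvd_left _ _))]

theorem T_LIT (hRUN : P_RUN) : P_LIT := by
  refine ⟨primeIn_iff, ?_⟩
  intro N hN a ha1 ha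
  obtain ⟨⟨hF, hleast⟩, -⟩ := hRUN id N hN
  have hne : ∀ k, 1 ≤ k → k < F id N → aseq id N k ≠ 0 := fun k hk hkF h0 => by
    have := hleast (show k ∈ {n : ℕ | 1 ≤ n ∧ aseq id N n = 0} from ⟨hk, h0⟩)
    omega
  have key : ∀ n : ℕ, 1 ≤ n → n ≤ F id N → (aseq id N n : ℤ) = a n := by
    intro n hn
    induction n, hn using Nat.le_induction with
    | base =>
      intro _
      have : aseq id N 1 = N - 6 := rfl
      rw [this, ha1, Nat.cast_sub hN]
      rfl
    | succ n hn ih =>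
      intro hle
      exact step hn (by simpa using ha (n + 1) (by omega)) (hne n hn (by omega)) (ih (by omega))
  refine ⟨key, ⟨hF.1, ?_⟩, ?_⟩
  · have := key _ hF.1 le_rfl
    rw [hF.2] at this
    simpa using this.symm
  · intro m hm
    by_contra hlt
    push Not at hlt
    have h1 := key m hm.1 hlt.le
    rw [hm.2] at h1
    exact hne m hm.1 hlt (by exact_mod_cast h1)

end Pool.Agent.H457.TR.LIT
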